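import Pool.Agent.H90.SRC.Targets
import Pool.Agent.H66.SLP.Easy

/-! # Row WRD: the word of the paths -/

set_option autoImplicit false

namespace Pool.Agent.H5.SRC

open Pool.Agent.H66.SLP Pool.Agent.H90.SRC

lemma cov_beta {Y : Type} (u : List Y) (p : Y → ℝ) : ∀ (L : List (RSys Y)) (α b : ℕ),
    Cov u p α L b → ∃ β : ℕ → ℕ, β 0 = α ∧ β L.length = b ∧
      ∀ j (hj : j < L.length), SegOK u p (β j) (β (j + 1)) (L.get ⟨j, hj⟩)
  | [], α, b, h => ⟨fun _ => α, rfl, h, fun j hj => absurd hj (Nat.not_lt_zero _)⟩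
  | S :: L, α, b, ⟨γ, hS, hC⟩ => by
    obtain ⟨β, h0, h1, h2⟩ := cov_beta u p L γ b hC
    refine ⟨fun n => Nat.casesOn n α β, rfl, h1, fun j hj => ?_⟩
    cases j with
    | zero =>
      show SegOK u p α (β 0) S
      rw [h0]
      exact hS
    | succ j => exact h2 j (Nat.lt_of_succ_lt_succ hj)

theorem pf_WRD : T_WRD := by
  intro Y u p L hL l hl
  obtain ⟨β, h0, h1, h2⟩ := cov_beta u p L 0 (u.length + 1) hL
  refine ⟨pf_NSW Y u β _ h0 ?_ ?_, ?_⟩
  · rw [List.length_ofFn, h1]
    exact Nat.lt_succ_self _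
  · intro j v hv g h hg hh hs
    obtain ⟨hj, rfl⟩ := List.getElem?_eq_some_iff.1 hv
    rw [List.length_ofFn] at hj
    rw [List.getElem_ofFn] at hs
    exact (h2 j hj).2 _ (hl ⟨j, hj⟩) g h hg hh hs
  · rw [List.map_flatten, List.sum_flatten, List.map_map, List.map_ofFn, List.sum_ofFn]
    have e : (L.map fun S => S.W).sum = ∑ r, (L.get r).W := by
      rw [← List.sum_ofFn]
      congr 1
      have h3 : (List.ofFn fun r => (L.get r).W) = (List.ofFn L.get).map fun S => S.W :=
        (List.map_ofFn (f := L.get) (g := fun S : RSys Y => S.W)).symm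
      rw [h3, List.ofFn_get]
    rw [e, ← Finset.sum_add_distrib]
    refine Finset.sum_le_sum fun r _ => ?_
    rw [← (pf_COST Y (L.get r) (l r) (hl r)).1]
    simp only [Function.comp_apply, List.map_map]
    refine List.sum_le_sum fun i hi => ?_
    exact (h2 r r.2).1 i ((hl r).1 i hi)

end Pool.Agent.H5.SRC
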